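import Pool.Agent.Helper11.Koebe.Final

namespace Pool.Agent.Results.MP_f56a4f_an.DiscreteKoebe

open Metric Pool.Agent.Helper11.Koebe

namespace Flower

def fB (u v w : Fin 4) : Bool :=
  (u, v, w) ∈ ([(0,1,2),(1,2,0),(2,0,1),(0,2,3),(2,3,0),(3,0,2),(0,3,1),(3,1,0),(1,0,3)] :
    List (Fin 4 × Fin 4 × Fin 4))

def bc (i : ℕ) : Fin 4 := if i % 3 = 0 then 1 else if i % 3 = 1 then 2 else 3

def bp1 (i : ℕ) : Fin 4 := if i = 0 then 2 else if i = 1 then 0 else 3
def bp2 (i : ℕ) : Fin 4 := if i = 0 then 3 else if i = 1 then 0 else 1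
def bp3 (i : ℕ) : Fin 4 := if i = 0 then 1 else if i = 1 then 0 else 2

theorem cyc0 : CycleRel (fun v w => fB 0 v w = true) := by
  refine ⟨3, le_rfl, bc, ?_, ?_, ?_⟩
  · intro i; simp [bc]
  · intro i hi j hj hij
    simp only [Set.mem_Iio] at hi hj
    interval_cases i <;> interval_cases j <;> simp_all [bc]
  · intro x y
    have key : fB 0 x y = true ↔ ∃ i < 3, bc i = x ∧ bc (i + 1) = y := by
      revert x y; decide
    show fB 0 x y = true ↔ _
    rw [key]
    constructor
    · rintro ⟨i, _, h⟩; exact ⟨i, h⟩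
    · rintro ⟨i, h1, h2⟩
      refine ⟨i % 3, Nat.mod_lt _ (by norm_num), ?_, ?_⟩
      · rw [← h1]; simp [bc]
      · rw [← h2]; simp [bc, Nat.add_mod]

theorem path1 : PathRel (fun v w => fB 1 v w = true) := by
  refine ⟨2, by norm_num, bp1, ?_, ?_⟩
  · intro i hi j hj hij
    simp only [Set.mem_Iic] at hi hj
    interval_cases i <;> interval_cases j <;> simp_all [bp1]
  · decide

theorem path2 : PathRel (fun v w => fB 2 v w = true) := by
  refine ⟨2, by norm_num, bp2, ?_, ?_⟩
  · intro i hi j hj hij
    simp only [Set.mem_Iic] at hi hj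
    interval_cases i <;> interval_cases j <;> simp_all [bp2]
  · decide

theorem path3 : PathRel (fun v w => fB 3 v w = true) := by
  refine ⟨2, by norm_num, bp3, ?_, ?_⟩
  · intro i hi j hj hij
    simp only [Set.mem_Iic] at hi hj
    interval_cases i <;> interval_cases j <;> simp_all [bp3]
  · decide

def KF : Tri (Fin 4) where
  face u v w := fB u v w = true
  rot := by decide
  link := by
    intro v
    fin_cases v
    · exact Or.inl cyc0
    · exact Or.inr path1
    · exact Or.inr path2
    · exact Or.inr path3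

theorem adj_iff (u v : Fin 4) : KF.Adj u v ↔ u ≠ v := by
  have : (∃ w, (fB u v w = true ∨ fB v u w = true)) ↔ u ≠ v := by
    revert u v; decide
  exact this

noncomputable def s3 : ℝ := Real.sqrt 3

theorem s3_sq : s3 * s3 = 3 := Real.mul_self_sqrt (by norm_num)

theorem s3_lo : 1.732 < s3 := by
  apply Real.lt_sqrt_of_sq_lt
  norm_num

theorem s3_hi : s3 < 1.7321 := by
  rw [s3, Real.sqrt_lt' (by norm_num)]
  norm_num

noncomputable def cF (v : Fin 4) : ℂ :=
  ![0, ⟨4 - 2 * s3, 0⟩, ⟨s3 - 2, 2 * s3 - 3⟩, ⟨s3 - 2, -(2 * s3 - 3)⟩] v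

noncomputable def rF (v : Fin 4) : ℝ :=
  ![7 - 4 * s3, 2 * s3 - 3, 2 * s3 - 3, 2 * s3 - 3] v

theorem rF_pos (v : Fin 4) : 0 < rF v := by
  have h1 := s3_lo
  have h2 := s3_hi
  fin_cases v
  · have : 0 < 7 - 4 * s3 := by linarith
    simpa [rF] using this
  · have : 0 < 2 * s3 - 3 := by linarith
    simpa [rF] using this
  · have : 0 < 2 * s3 - 3 := by linarith
    simpa [rF] using this
  · have : 0 < 2 * s3 - 3 := by linarith
    simpa [rF] using this

theorem dist_of_sq (p q : ℂ) (r : ℝ) (hr : 0 ≤ r)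
    (h : (p.re - q.re) ^ 2 + (p.im - q.im) ^ 2 = r ^ 2) : dist p q = r := by
  rw [Complex.dist_eq_re_im, h, Real.sqrt_sq hr]

theorem tang (u v : Fin 4) (h : u ≠ v) : dist (cF u) (cF v) = rF u + rF v := by
  have h1 := s3_lo
  have h2 := s3_hi
  have h3 := s3_sq
  apply dist_of_sq _ _ _ (add_pos (rF_pos u) (rF_pos v)).le
  fin_cases u <;> fin_cases v <;> first
    | exact absurd rfl h
    | (simp [cF, rF]
       nlinarith)

theorem orient_formula (p q r : ℂ) : orient p q r =
    (q.re - p.re) * (r.im - p.im) - (q.im - p.im) * (r.re - p.re) := by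
  unfold orient
  simp [Complex.mul_im]
  ring

theorem orF (u v w : Fin 4) (h : fB u v w = true) : 0 < orient (cF u) (cF v) (cF w) := by
  have h1 := s3_lo
  have h2 := s3_hi
  have h4 : 0 < (4 - 2 * s3) * (2 * s3 - 3) := mul_pos (by linarith) (by linarith)
  rw [orient_formula]
  fin_cases u <;> fin_cases v <;> fin_cases w <;> first
    | exact absurd h (by decide)
    | (simp [cF]
       nlinarith)

noncomputable def QF : Packing KF where
  c := cF
  r := rF
  r_pos := rF_pos
  tangent u v h := tang u v ((adj_iff u v).1 h)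
  oriented := orF

theorem norm_cF (v : Fin 4) (hv : v ≠ 0) : ‖cF v‖ + rF v = 1 := by
  have h := tang v 0 hv
  have h0 : cF 0 = 0 := rfl
  rw [h0, dist_zero_right] at h
  rw [h]
  fin_cases v
  · exact absurd rfl hv
  · simp [rF]; ring
  · simp [rF]; ring
  · simp [rF]; ring

end Flower

/-- Sanity check: the hypotheses are satisfiable. A concrete maximal packing is the flower with
three petals, centre `0` with radius `7 - 4 * sqrt 3` and petals of radius `2 * sqrt 3 - 3`. -/
theorem sanity : ∃ (K : Tri (Fin 4)) (Q : Packing K), K.Connected ∧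
    (∀ v, {w | K.Adj v w}.encard ≤ 3) ∧ Q.Maximal ∧ K.Interior 0 ∧ Q.c 0 = 0 := by
  refine ⟨Flower.KF, Flower.QF, ?_, ?_, ⟨?_, ?_, ?_⟩, Flower.cyc0, rfl⟩
  · intro u v
    by_cases h : u = v
    · subst h; exact Relation.ReflTransGen.refl
    · exact Relation.ReflTransGen.single ((Flower.adj_iff u v).2 h)
  · intro v
    have hsub : {w | Flower.KF.Adj v w} ⊆ ((Finset.univ.erase v : Finset (Fin 4)) : Set (Fin 4)) := by
      intro w hw
      have : v ≠ w := (Flower.adj_iff v w).1 hw
      simpa using this.symm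
    calc {w | Flower.KF.Adj v w}.encard
        ≤ ((Finset.univ.erase v : Finset (Fin 4)) : Set (Fin 4)).encard := Set.encard_le_encard hsub
      _ = 3 := by
        rw [Set.encard_coe_eq_coe_finsetCard]
        rw [Finset.card_erase_of_mem (Finset.mem_univ _)]
        rfl
  · intro u v h
    exact Metric.ball_disjoint_ball (Flower.tang u v h).ge
  · intro v
    apply Metric.closedBall_subset_closedBall'
    by_cases hv : v = 0
    · subst hv
      have h1 := Flower.s3_lo
      have : (7 - 4 * Flower.s3) ≤ 1 := by linarith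
      have h0 : Flower.QF.c 0 = 0 := rfl
      have h0' : Flower.QF.r 0 = 7 - 4 * Flower.s3 := rfl
      rw [h0, h0', dist_self]
      linarith
    · have := Flower.norm_cF v hv
      rw [dist_zero_right]
      have e1 : Flower.QF.c v = Flower.cF v := rfl
      have e2 : Flower.QF.r v = Flower.rF v := rfl
      rw [e1, e2]
      linarith
  · left
    refine ⟨inferInstance, ?_⟩
    intro v hv
    apply Flower.norm_cF v
    rintro rfl
    exact hv Flower.cyc0

/-- Discrete Koebe quarter theorem for circle packings of bounded degree. `Q` is the maximal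
packing of the complex `K` in the unit disc, `P` is a univalent packing of `K`, and the circle of
the interior vertex `v0` is centred at the origin and is the same in both packings. -/
theorem result (d : ℕ) : ∃ s : ℝ, 0 < s ∧ ∀ (V : Type) (K : Tri V), K.Connected →
    (∀ v, {w | K.Adj v w}.encard ≤ d) → ∀ Q P : Packing K, Q.Maximal → P.Univalent →
    ∀ v0, K.Interior v0 → Q.c v0 = 0 → P.c v0 = 0 → P.r v0 = Q.r v0 →
    Metric.ball 0 s ⊆ P.carrier :=
  koebe d

end Pool.Agent.Results.MP_f56a4f_an.DiscreteKoebe
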